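import Pool.Graph.R_seed8.H256R2.SC.Defs

set_option autoImplicit false
set_option linter.unusedSectionVars false

/-! # Lower bound of the sums over products, from sums over single primes -/

namespace Pool.Agent.H525.AC

open Finset Pool.Agent.H256R2.SC

theorem exp_sub_sq_le (t : ℝ) (ht : 0 ≤ t) : Real.exp (t - t ^ 2) ≤ 1 + t := by
  have h0 : 0 < 1 + t := by linarith
  rw [← Real.le_log_iff_exp_le h0]
  have h1 := Real.one_sub_inv_le_log_of_pos h0
  refine le_trans ?_ h1
  have : 1 - (1 + t)⁻¹ = t / (1 + t) := by field_simp; ring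
  rw [this, le_div_iff₀ h0]
  nlinarith [pow_nonneg ht 3]

theorem exp_le_one_add_two_mul (t : ℝ) (h0 : 0 ≤ t) (h1 : t ≤ 1) : Real.exp t ≤ 1 + 2 * t := by
  have h2 := Real.abs_exp_sub_one_sub_id_le (x := t) (by rw [abs_of_nonneg h0]; exact h1)
  have h3 := (abs_le.mp h2).2
  nlinarith

theorem Asum_lower {n : ℕ} (p g : Fin n → ℝ) (y A C x : ℝ) (hy : 1 < y) (hA : 0 ≤ A) (hC : 0 ≤ C)
    (hyx : y ≤ x) (hp : ∀ i, y < p i) (hg0 : ∀ i, 0 < g i) (hg2 : ∑ i, (g i) ^ 2 ≤ 1)
    (hM1 : ∀ w, y ≤ w → w ≤ x → ∑ i with p i ≤ w, g i * Real.log (p i) ≤ A * Real.log w)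
    (hM2 : ∀ w, y ≤ w → w ≤ x →
      Real.log (Real.log w / Real.log y) - C ≤ ∑ i with p i ≤ w, g i) :
    Real.exp (-(C + 1)) / (2 * (2 * A + 1)) * Real.log x / Real.log y - 1 ≤ Asum p g x := by
  classical
  set B : ℝ := 2 * A + 1 with hB
  have hB1 : 1 ≤ B := by linarith
  have hB0 : 0 < B := by linarith
  have hly : 0 < Real.log y := Real.log_pos hy
  have hx0 : 0 < x := by linarith
  have hlx : Real.log y ≤ Real.log x := Real.log_le_log (by linarith) hyx
  have hp0 : ∀ i, 0 < p i := fun i => by linarith [hp i]
  have hA0 : 0 ≤ Asum p g x := by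
    unfold Asum
    exact Finset.sum_nonneg (fun s _ => Finset.prod_nonneg (fun i _ => (hg0 i).le))
  set w : ℝ := Real.exp (Real.log x / B) with hw
  have hlw : Real.log w = Real.log x / B := Real.log_exp _
  have hw0 : 0 < w := Real.exp_pos _
  have hwx : w ≤ x := by
    rw [← Real.log_le_log_iff hw0 hx0, hlw]
    exact div_le_self (by linarith) hB1
  by_cases hyw : y ≤ w
  · -- main case
    have hlyw : Real.log y ≤ Real.log w := Real.log_le_log (by linarith) hyw
    have hlw0 : 0 < Real.log w := by linarith
    set T : Finset (Fin n) := univ.filter (fun i => p i ≤ w) with hT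
    set P : ℝ := ∏ i ∈ T, (1 + g i) with hP
    have hP0 : 0 < P := Finset.prod_pos (fun i _ => by linarith [hg0 i])
    set η : ℝ := 1 / Real.log w with hη
    have hη0 : 0 < η := by positivity
    -- the complete sum
    have e1 : ∑ s ∈ T.powerset, ∏ i ∈ s, g i = P := by
      rw [hP, Finset.prod_one_add]
    have e2 : ∑ s ∈ T.powerset, (∏ i ∈ s, g i) * ((∏ i ∈ s, p i) / x) ^ η =
        x ^ (-η) * ∏ i ∈ T, (1 + g i * (p i) ^ η) := by
      rw [Finset.prod_one_add, Finset.mul_sum]
      apply Finset.sum_congr rfl
      intro s _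
      rw [Finset.prod_mul_distrib, Real.div_rpow (Finset.prod_nonneg fun i _ => (hp0 i).le) hx0.le,
        Real.rpow_neg hx0.le, ← Real.finsetProd_rpow _ _ (fun i _ => (hp0 i).le)]
      ring
    have e3 : x ^ (-η) = Real.exp (-B) := by
      rw [Real.rpow_def_of_pos hx0, hη, hlw]
      congr 1
      have : Real.log x ≠ 0 := by linarith
      field_simp
    have e4 : ∏ i ∈ T, (1 + g i * (p i) ^ η) ≤ P * Real.exp (2 * A) := by
      have h1 : ∀ i ∈ T, 1 + g i * (p i) ^ η ≤
          (1 + g i) * Real.exp (2 * (g i * Real.log (p i)) / Real.log w) := by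
        intro i hi
        rw [hT, Finset.mem_filter] at hi
        have hgi := hg0 i
        have hlp : 0 < Real.log (p i) := Real.log_pos (by linarith [hp i])
        have hlpw : Real.log (p i) ≤ Real.log w := Real.log_le_log (hp0 i) hi.2
        have h2 : (p i) ^ η ≤ 1 + 2 * (Real.log (p i) / Real.log w) := by
          rw [Real.rpow_def_of_pos (hp0 i), hη, mul_one_div]
          exact exp_le_one_add_two_mul _ (by positivity) ((div_le_one hlw0).2 hlpw)
        have h3 : 1 + g i * (p i) ^ η ≤
            (1 + g i) * (1 + 2 * (g i * Real.log (p i)) / Real.log w) := by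
          have h4 : g i * (p i) ^ η ≤ g i * (1 + 2 * (Real.log (p i) / Real.log w)) :=
            mul_le_mul_of_nonneg_left h2 hgi.le
          have h5 : 2 * (g i * Real.log (p i)) / Real.log w =
              g i * (2 * (Real.log (p i) / Real.log w)) := by ring
          rw [h5]
          have h6 : 0 ≤ g i * (2 * (Real.log (p i) / Real.log w)) := by positivity
          nlinarith
        refine h3.trans (mul_le_mul_of_nonneg_left ?_ (by linarith))
        rw [add_comm]
        exact Real.add_one_le_exp _
      calc ∏ i ∈ T, (1 + g i * (p i) ^ η)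
          ≤ ∏ i ∈ T, ((1 + g i) * Real.exp (2 * (g i * Real.log (p i)) / Real.log w)) := by
            apply Finset.prod_le_prod _ h1
            intro i _
            have := hg0 i
            have := (Real.rpow_pos_of_pos (hp0 i) η).le
            positivity
        _ = P * Real.exp (∑ i ∈ T, 2 * (g i * Real.log (p i)) / Real.log w) := by
            rw [Finset.prod_mul_distrib, ← Real.exp_sum]
        _ ≤ P * Real.exp (2 * A) := by
            apply mul_le_mul_of_nonneg_left _ hP0.le
            apply Real.exp_le_exp.mpr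
            have h5 : ∑ i ∈ T, 2 * (g i * Real.log (p i)) / Real.log w =
                2 / Real.log w * ∑ i ∈ T, g i * Real.log (p i) := by
              rw [Finset.mul_sum]
              apply Finset.sum_congr rfl
              intro i _
              ring
            rw [h5]
            have h6 := hM1 w hyw hwx
            calc 2 / Real.log w * ∑ i ∈ T, g i * Real.log (p i)
                ≤ 2 / Real.log w * (A * Real.log w) :=
                  mul_le_mul_of_nonneg_left h6 (by positivity)
              _ = 2 * A := by field_simp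
    -- the truncated sum
    have e5 : ∑ s ∈ T.powerset, (∏ i ∈ s, g i) * (1 - ((∏ i ∈ s, p i) / x) ^ η) ≤
        Asum p g x + 1 := by
      have h1 : ∑ s ∈ T.powerset, (∏ i ∈ s, g i) * (1 - ((∏ i ∈ s, p i) / x) ^ η) ≤
          ∑ s ∈ T.powerset with ∏ i ∈ s, p i ≤ x, ∏ i ∈ s, g i := by
        rw [Finset.sum_filter]
        apply Finset.sum_le_sum
        intro s _
        have hgs : 0 ≤ ∏ i ∈ s, g i := Finset.prod_nonneg (fun i _ => (hg0 i).le)
        have hps : 0 < ∏ i ∈ s, p i := Finset.prod_pos (fun i _ => hp0 i)
        split_ifs with h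
        · have : 0 ≤ ((∏ i ∈ s, p i) / x) ^ η := Real.rpow_nonneg (by positivity) _
          nlinarith
        · have h2 : 1 ≤ ((∏ i ∈ s, p i) / x) ^ η :=
            Real.one_le_rpow ((one_le_div hx0).2 (not_le.1 h).le) hη0.le
          nlinarith
      refine h1.trans ?_
      have h2 : ∑ s ∈ T.powerset with ∏ i ∈ s, p i ≤ x, ∏ i ∈ s, g i ≤
          ∑ s ∈ insert ∅ (univ.filter (fun s : Finset (Fin n) => s.Nonempty ∧ ∏ i ∈ s, p i ≤ x)),
            ∏ i ∈ s, g i := by
        apply Finset.sum_le_sum_of_subset_of_nonneg
        · intro s hs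
          rw [Finset.mem_filter] at hs
          rw [Finset.mem_insert]
          rcases s.eq_empty_or_nonempty with h | h
          · exact Or.inl h
          · exact Or.inr (Finset.mem_filter.2 ⟨Finset.mem_univ _, h, hs.2⟩)
        · intro s _ _
          exact Finset.prod_nonneg (fun i _ => (hg0 i).le)
      refine h2.trans ?_
      rw [Finset.sum_insert (by simp)]
      unfold Asum
      simp only [Finset.prod_empty]
      linarith
    have e6 : P * (1 / 2) ≤ Asum p g x + 1 := by
      have h1 : ∑ s ∈ T.powerset, (∏ i ∈ s, g i) * (1 - ((∏ i ∈ s, p i) / x) ^ η) =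
          P - x ^ (-η) * ∏ i ∈ T, (1 + g i * (p i) ^ η) := by
        rw [← e1, ← e2, ← Finset.sum_sub_distrib]
        apply Finset.sum_congr rfl
        intro s _
        ring
      rw [h1] at e5
      have h2 : x ^ (-η) * ∏ i ∈ T, (1 + g i * (p i) ^ η) ≤ P * (1 / 2) := by
        rw [e3]
        calc Real.exp (-B) * ∏ i ∈ T, (1 + g i * (p i) ^ η)
            ≤ Real.exp (-B) * (P * Real.exp (2 * A)) :=
              mul_le_mul_of_nonneg_left e4 (Real.exp_pos _).le
          _ = P * Real.exp (-1) := by
              have : Real.exp (-B) * Real.exp (2 * A) = Real.exp (-1) := by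
                rw [← Real.exp_add]; congr 1; rw [hB]; ring
              calc Real.exp (-B) * (P * Real.exp (2 * A)) =
                  P * (Real.exp (-B) * Real.exp (2 * A)) := by ring
                _ = _ := by rw [this]
          _ ≤ P * (1 / 2) := by
              apply mul_le_mul_of_nonneg_left _ hP0.le
              have h3 : (2:ℝ) ≤ Real.exp 1 := by
                have := Real.add_one_le_exp (1:ℝ); linarith
              rw [Real.exp_neg, inv_eq_one_div]
              exact one_div_le_one_div_of_le (by norm_num) h3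
      linarith
    have e7 : Real.exp (-(C + 1)) * (Real.log w / Real.log y) ≤ P := by
      have h1 : Real.exp (∑ i ∈ T, (g i - (g i) ^ 2)) ≤ P := by
        rw [Real.exp_sum, hP]
        apply Finset.prod_le_prod
        · intro i _; exact (Real.exp_pos _).le
        · intro i _; exact exp_sub_sq_le _ (hg0 i).le
      refine le_trans ?_ h1
      have h2 := hM2 w hyw hwx
      have h3 : ∑ i ∈ T, (g i) ^ 2 ≤ 1 := by
        refine le_trans ?_ hg2
        apply Finset.sum_le_sum_of_subset_of_nonneg (Finset.subset_univ _)
        intro i _ _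
        positivity
      rw [Finset.sum_sub_distrib]
      have h4 : 0 < Real.log w / Real.log y := by positivity
      calc Real.exp (-(C + 1)) * (Real.log w / Real.log y)
          = Real.exp (-(C + 1) + Real.log (Real.log w / Real.log y)) := by
            rw [Real.exp_add, Real.exp_log h4]
        _ ≤ _ := Real.exp_le_exp.mpr (by linarith)
    have e8 : Real.exp (-(C + 1)) / (2 * B) * Real.log x / Real.log y =
        Real.exp (-(C + 1)) * (Real.log w / Real.log y) * (1 / 2) := by
      rw [hlw]
      field_simp
    rw [e8]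
    linarith
  · -- trivial case
    have h1 : Real.log x < B * Real.log y := by
      have h2 : Real.log w < Real.log y := Real.log_lt_log hw0 (not_le.1 hyw)
      rw [hlw, div_lt_iff₀ hB0] at h2
      linarith
    have h2 : Real.exp (-(C + 1)) / (2 * B) * Real.log x / Real.log y ≤ 1 := by
      have h3 : Real.exp (-(C + 1)) ≤ 1 := Real.exp_le_one_iff.2 (by linarith)
      rw [div_le_one hly, div_mul_eq_mul_div, div_le_iff₀ (by positivity)]
      have h4 : 0 ≤ Real.log x := by linarith
      nlinarith
    linarith

end Pool.Agent.H525.AC
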