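import Pool.Graph.R_seed8.H256R2.SC.V2
import Pool.Graph.R_seed8.H256R2.SC.J
import Pool.Graph.R_seed8.H256R2.SC.S
import Pool.Agent.H525.AC.Asum

set_option autoImplicit false
set_option linter.unusedSectionVars false

/-! # The covering theorem for abstract sieving primes

The primes enter only through the sums of `g i` and of `g i * log (p i)`. -/

namespace Pool.Agent.H525.AC

open Finset Filter Pool.Agent.H256R2.SC

open scoped Classical

private lemma vaux1 (L : ℝ) (hL : 0 < L) : (2 / L) ^ 2 = 4 / L ^ 2 := by field_simp; norm_num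
private lemma vaux2 (L : ℝ) (hL : 0 < L) : L * (5 / L ^ 2) = 5 / L := by field_simp
private lemma vaux3 (L : ℝ) (hL : 0 < L) : (L / 8) * (1 / L) = 1 / 8 := by field_simp

theorem abscov2 (A C : ℝ) (hA : 0 ≤ A) (hC : 0 ≤ C) : ∃ c : ℝ, 0 < c ∧ ∃ L₀ : ℝ, ∀ L : ℝ, L₀ ≤ L →
    ∃ z : ℝ, L / (2000 * Real.log L) ≤ Real.log z ∧ Real.log z ≤ L / (1000 * Real.log L) ∧ 0 < z ∧
    L ^ 2 ≤ z ∧
    ∀ (n : ℕ) (p g : Fin n → ℝ), (∀ i, L ^ 2 < p i) → (∀ i, p i ≤ z) → (∀ i, 1 / (2 * p i) ≤ g i) →
    (∀ i, g i ≤ 2 / L ^ 2) →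
    (∀ w, L ^ 2 ≤ w → w ≤ z → ∑ i with p i ≤ w, g i * Real.log (p i) ≤ A * Real.log w) →
    (∀ w, L ^ 2 ≤ w → w ≤ z →
      Real.log (Real.log w / Real.log (L ^ 2)) - C ≤ ∑ i with p i ≤ w, g i) →
    (∑ i, g i ≤ Real.log L + C) → ((n : ℝ) + 1 ≤ z ^ 2) →
    ∀ (κ : Type) [Fintype κ] [DecidableEq κ], (Fintype.card κ : ℝ) ≤ c * L →
    ∀ (α : Type) (𝒜 : Finset α) (col : α → Col n κ) (N Err : ℝ), 0 < N → 0 ≤ Err →
    Err * Real.exp (L / 4) ≤ N →
    (∀ D : Col n κ, qq p D ≤ Real.exp (L / 10) →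
      |((𝒜.filter (fun a => ∀ i, D i ≠ none → col a i = D i)).card : ℝ) - N * nu g D| ≤ Err) →
    ∃ a ∈ 𝒜, ∀ k, ∃ i, col a i = some k := by
  set c₂ : ℝ := Real.exp (-(C + 1)) / (2 * (2 * A + 1)) with hc₂d
  have hc₂ : 0 < c₂ := by positivity
  set C₀ : ℝ := 2 / c₂ + 1 with hC₀
  have hC1 : 1 ≤ C₀ := by rw [hC₀]; have : 0 < 2 / c₂ := by positivity
                          linarith
  set c : ℝ := min (1 / 16) (c₂ / 6400) with hc
  have hc0 : 0 < c := lt_min (by norm_num) (by positivity)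
  have hc16 : c ≤ 1 / 16 := min_le_left _ _
  have hc8 : c ≤ 1 / 8 := by linarith
  have hcc : c ≤ c₂ / 6400 := min_le_right _ _
  obtain ⟨L₀, hL₀⟩ := ev_facts C₀ C
  refine ⟨c, hc0, L₀, ?_⟩
  intro L hLL
  obtain ⟨f1, f2, f3, f4, f5, f6⟩ := hL₀ L hLL
  obtain ⟨m, hm1, hm2, hm3⟩ := scales C₀ L hC1 f1 f3 f5
  set l : ℝ := Real.log L with hl
  have hl0 : 0 < l := by linarith
  have hLpos : 0 < L := by linarith
  have hLexp : L = Real.exp l := (Real.exp_log hLpos).symm
  set z₀ : ℝ := Real.exp (2 * C₀ * l) with hz₀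
  set z : ℝ := z₀ ^ (2 ^ m) with hz
  have hlogz0 : Real.log z₀ = 2 * C₀ * l := Real.log_exp _
  have hz01 : 1 < z₀ := by rw [hz₀]; exact Real.one_lt_exp_iff.mpr (by positivity)
  have hlogzj : ∀ j : ℕ, Real.log (z₀ ^ (2 ^ j)) = (2:ℝ) ^ j * (2 * C₀ * l) := by
    intro j
    rw [Real.log_pow, hlogz0]
    push_cast
    ring
  have hlogz : Real.log z = (2:ℝ) ^ m * (2 * C₀ * l) := hlogzj m
  have hzpos : 0 < z := by rw [hz]; positivity
  have hlz1 : Real.log z ≤ L / (1000 * l) := by rw [hlogz]; exact hm1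
  have hlz2 : L / (2000 * l) ≤ Real.log z := by rw [hlogz]; exact hm2
  have hlzpos : 0 < Real.log z := lt_of_lt_of_le (by positivity) hlz2
  have hzexp : z = Real.exp (Real.log z) := (Real.exp_log hzpos).symm
  have hlzL : Real.log z ≤ L / 10000 := by
    refine hlz1.trans ?_
    apply div_le_div_of_nonneg_left hLpos.le (by norm_num)
    nlinarith
  set y₁ : ℝ := L ^ 2 with hy₁
  have hy1 : 3 ≤ y₁ := by rw [hy₁]; nlinarith
  have hlogy : Real.log y₁ = 2 * l := by rw [hy₁, Real.log_pow]; push_cast; ring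
  have hyz0 : ∀ j : ℕ, y₁ ≤ z₀ ^ (2 ^ j) := by
    intro j
    have hxl := hlogzj j
    have h2j : (1:ℝ) ≤ 2 ^ j := one_le_pow₀ (by norm_num)
    rw [← Real.log_le_log_iff (by linarith) (by positivity), hxl, hlogy]
    have : 2 * l ≤ 1 * (2 * C₀ * l) := by nlinarith
    nlinarith
  refine ⟨z, hlz2, hlz1, hzpos, hyz0 m, ?_⟩
  intro n P g hPy hPz hgP1 hgP2 hM1 hM2 hG hnz κ _ _ hκ α 𝒜 col N Err hN hErr0 hErr hcount
  have hP1 : ∀ i, 1 < P i := fun i => by linarith [hPy i]
  have hP0 : ∀ i, 0 < P i := fun i => by linarith [hPy i]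
  have hg0 : ∀ i, 0 < g i := fun i =>
    lt_of_lt_of_le (div_pos one_pos (mul_pos two_pos (hP0 i))) (hgP1 i)
  have hgy : ∀ i, g i ≤ 2 / y₁ := hgP2
  have hGn : 0 ≤ ∑ i, g i := Finset.sum_nonneg (fun i _ => (hg0 i).le)
  have hGL : ∑ i, g i ≤ 2 * L := by linarith
  have hg2s : ∑ i, (g i) ^ 2 ≤ 1 := by
    have h1 : ∑ i, (g i) ^ 2 ≤ (2 / y₁) * ∑ i, g i := by
      rw [Finset.mul_sum]
      apply Finset.sum_le_sum
      intro i _
      rw [pow_two]
      exact mul_le_mul_of_nonneg_right (hgy i) (hg0 i).le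
    refine h1.trans ?_
    have h2 : (2 / y₁) * ∑ i, g i ≤ (2 / y₁) * (2 * L) :=
      mul_le_mul_of_nonneg_left hGL (by positivity)
    have h3 : (2 / y₁) * (2 * L) = 4 / L := by rw [hy₁]; field_simp; norm_num
    have h4 : 4 / L ≤ 1 := by rw [div_le_one hLpos]; linarith
    linarith
  -- the profile
  set lam : ℝ := c₂ / (4 * l) with hlam
  have hlam0 : 0 < lam := by positivity
  have hAs : ∀ j < m + 1, 1 ≤ Asum P g (z₀ ^ (2 ^ j)) ∧
      lam * (2 ^ j * Real.log z₀) ≤ Asum P g (z₀ ^ (2 ^ j)) := by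
    intro j hj
    have hxl := hlogzj j
    have h2j : (1:ℝ) ≤ 2 ^ j := one_le_pow₀ (by norm_num)
    have hyx := hyz0 j
    have hxz : z₀ ^ (2 ^ j) ≤ z := by
      rw [hz]
      exact pow_le_pow_right₀ hz01.le (Nat.pow_le_pow_right (by norm_num) (by omega))
    have h2 := Asum_lower P g y₁ A C (z₀ ^ (2 ^ j)) (by linarith) hA hC hyx hPy hg0 hg2s
      (fun w hw1 hw2 => hM1 w hw1 (hw2.trans hxz)) (fun w hw1 hw2 => hM2 w hw1 (hw2.trans hxz))
    have h3 : c₂ * Real.log (z₀ ^ (2 ^ j)) / Real.log y₁ = c₂ * (2 ^ j * C₀) := by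
      rw [hxl, hlogy]
      field_simp
    rw [← hc₂d, h3] at h2
    have h4 : c₂ * C₀ = 2 + c₂ := by
      rw [hC₀]
      field_simp
    have h6 : 2 ≤ c₂ * (2 ^ j * C₀) := by
      calc (2:ℝ) ≤ c₂ * C₀ := by linarith
        _ = c₂ * (1 * C₀) := by ring
        _ ≤ c₂ * (2 ^ j * C₀) := by
          apply mul_le_mul_of_nonneg_left _ hc₂.le
          apply mul_le_mul_of_nonneg_right h2j (by linarith)
    refine ⟨by linarith, ?_⟩
    have h7 : lam * (2 ^ j * Real.log z₀) = c₂ * (2 ^ j * C₀) / 2 := by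
      rw [hlam, hlogz0]
      field_simp
      ring
    rw [h7]
    linarith
  obtain ⟨h, H⟩ := exists_h P g hP1 hg0 (m + 1) (by omega) z₀ lam hz01 hlam0 hAs
  have hzz : z₀ ^ (2 ^ (m + 1 - 1)) = z := by rw [hz, Nat.add_sub_cancel]
  rw [hzz] at H
  set K : ℝ := 4 / (lam * ((m + 1 : ℕ) : ℝ)) with hK
  have hK16 : K ≤ 16 / c₂ := by
    rw [hK, div_le_div_iff₀ (by positivity) hc₂]
    have h1 : c₂ / 4 ≤ lam * ((m + 1 : ℕ) : ℝ) := by
      push_cast
      calc c₂ / 4 = lam * l := by rw [hlam]; field_simp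
        _ ≤ lam * (m + 1) := mul_le_mul_of_nonneg_left hm3 hlam0.le
    nlinarith
  have hK0 : 0 ≤ K := H.K0
  set u : ℝ := (Fintype.card κ : ℝ) with hu
  have hu0 : 0 ≤ u := Nat.cast_nonneg _
  have huL : u ≤ L / 8 := by nlinarith
  have huL16 : u ≤ L / 16 := by nlinarith
  -- parameters
  set Q : ℝ := Real.exp (L / 40) with hQ
  set J : ℕ := 2 * ⌈11 * l⌉₊ with hJ
  have hJ1 : 22 * l ≤ (J:ℝ) := by
    have := Nat.le_ceil (11 * l)
    rw [hJ]; push_cast; linarith
  have hJ2 : (J:ℝ) ≤ 23 * l := by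
    have := Nat.ceil_lt_add_one (show 0 ≤ 11 * l by positivity)
    rw [hJ]; push_cast; linarith
  have hJe : Even J := ⟨⌈11 * l⌉₊, by rw [hJ]; ring⟩
  have hQ1 : 1 ≤ Q := Real.one_le_exp (by positivity)
  have hzJ : z ^ J ≤ Real.exp (23 * L / 1000) := by
    rw [hzexp, ← Real.exp_nat_mul]
    apply Real.exp_le_exp.mpr
    calc (J:ℝ) * Real.log z ≤ (23 * l) * (L / (1000 * l)) :=
          mul_le_mul hJ2 hlz1 hlzpos.le (by positivity)
      _ = 23 * L / 1000 := by field_simp
  -- sizes of supports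
  have hsupp : ∀ D : Col n κ, qq P D ≤ Q → ((supp D).card : ℝ) ≤ L / 40 := by
    intro D hD
    have h1 : Real.exp ((supp D).card : ℝ) ≤ qq P D := by
      unfold qq
      rw [prod_nu1]
      have : Real.exp ((supp D).card : ℝ) = ∏ i ∈ supp D, Real.exp 1 := by
        rw [Finset.prod_const, ← Real.exp_nat_mul, mul_one]
      rw [this]
      apply Finset.prod_le_prod
      · intro i _; exact (Real.exp_pos _).le
      · intro i _
        have := Real.exp_one_lt_d9
        linarith [hPy i]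
    have h2 := h1.trans hD
    rw [hQ] at h2
    exact Real.exp_le_exp.mp h2
  have hδ : ∀ D : Col n κ, qq P D ≤ Q → 2 * ∑ i with D i ≠ none, g i ≤ 2 / L := by
    intro D hD
    have h1 : ∑ i with D i ≠ none, g i ≤ (supp D).card * (2 / y₁) := by
      have : ∑ i ∈ supp D, g i ≤ ∑ i ∈ supp D, (2 / y₁) := Finset.sum_le_sum (fun i _ => hgy i)
      rw [Finset.sum_const, nsmul_eq_mul] at this
      exact this
    have h2 := hsupp D hD
    have h3 : ((supp D).card : ℝ) * (2 / y₁) ≤ L / 40 * (2 / y₁) :=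
      mul_le_mul_of_nonneg_right h2 (by positivity)
    have h4 : L / 40 * (2 / y₁) = 1 / (20 * L) := by rw [hy₁]; field_simp; norm_num
    have h5 : 1 / (20 * L) ≤ 1 / L := by
      apply one_div_le_one_div_of_le hLpos
      linarith
    have h6 : 2 / L = 2 * (1 / L) := by ring
    rw [h6]
    linarith
  -- apply the core theorem
  have hL8 : (80:ℝ) ≤ L := by linarith
  exact core (κ := κ) 𝒜 col H Q (2 / L) 3 N Err J hJe (by norm_num)
    hN hErr0 hQ1 hPz
    (fun i => by
      have h1 : (2:ℝ) / y₁ ≤ 1 := by rw [div_le_one (by linarith)]; linarith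
      exact (hgy i).trans h1)
    (fun i => by
      have h1 : (2:ℝ) / y₁ ≤ 1 / 9 := by
        rw [div_le_div_iff₀ (by linarith) (by norm_num), hy₁]; nlinarith
      have := hgy i
      linarith)
    (fun i => by
      have h1 : u * g i ≤ (L / 8) * (2 / y₁) := mul_le_mul huL (hgy i) (hg0 i).le (by positivity)
      have h2 : (L / 8) * (2 / y₁) = 1 / (4 * L) := by rw [hy₁]; field_simp; norm_num
      have h3 : 1 / (4 * L) ≤ 1 := by rw [div_le_one (by positivity)]; linarith
      linarith)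
    hδ
    (by
      have : u * (2 / L) ≤ (L / 8) * (2 / L) := mul_le_mul_of_nonneg_right huL (by positivity)
      have e : (L / 8) * (2 / L) = 1 / 4 := by field_simp; norm_num
      linarith)
    (by
      have h1 : ∑ i, 1 / (P i) ^ 2 ≤ (2 / y₁) * ∑ i, g i := by
        rw [Finset.mul_sum]
        apply Finset.sum_le_sum
        intro i _
        have hPi := hP0 i
        have e1 : 1 / (P i) ^ 2 = (2 * (1 / P i)) * (1 / (2 * P i)) := by
          field_simp
        rw [e1]
        have e2 : 2 * (1 / P i) ≤ 2 / y₁ := by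
          rw [mul_one_div]
          exact div_le_div_of_nonneg_left (by norm_num) (by linarith) (hPy i).le
        exact mul_le_mul e2 (hgP1 i) (by positivity) (by positivity)
      have h2 : (2 / y₁) * ∑ i, g i ≤ (2 / y₁) * (2 * L) := by
        apply mul_le_mul_of_nonneg_left _ (by positivity)
        linarith
      have h3 : (2 / y₁) * (2 * L) = 4 / L := by rw [hy₁]; field_simp; norm_num
      have h4 : 2 * u * ∑ i, 1 / (P i) ^ 2 ≤ 2 * (L / 16) * (4 / L) := by
        apply mul_le_mul _ (by linarith) (Finset.sum_nonneg (fun i _ => by positivity))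
          (by positivity)
        linarith
      have e : 2 * (L / 16) * (4 / L) = 1 / 2 := by field_simp; norm_num
      linarith)
    (by
      have h1 : 2 * u * K / Real.log z ≤ 10 * l := by
        rw [div_le_iff₀ hlzpos]
        have e1 : 2 * u * K ≤ 2 * (c * L) * (16 / c₂) := by
          apply mul_le_mul (by linarith) hK16 hK0 (by positivity)
        have e2 : 2 * (c * L) * (16 / c₂) ≤ L / 200 := by
          have : c * (16 / c₂) ≤ 1 / 400 := by
            calc c * (16 / c₂) ≤ c₂ / 6400 * (16 / c₂) :=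
                  mul_le_mul_of_nonneg_right hcc (by positivity)
              _ = 1 / 400 := by field_simp; norm_num
          nlinarith
        have e3 : L / 200 = 10 * l * (L / (2000 * l)) := by field_simp; norm_num
        have e4 : 10 * l * (L / (2000 * l)) ≤ 10 * l * Real.log z :=
          mul_le_mul_of_nonneg_left hlz2 (by positivity)
        linarith
      have h2 : 25 * l - 1 ≤ Real.log (Q / z) / Real.log z := by
        rw [Real.log_div (by positivity) hzpos.ne', hQ, Real.log_exp, sub_div, div_self hlzpos.ne']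
        have : 25 * l ≤ L / 40 / Real.log z := by
          rw [le_div_iff₀ hlzpos]
          calc 25 * l * Real.log z ≤ 25 * l * (L / (1000 * l)) :=
                mul_le_mul_of_nonneg_left hlz1 (by positivity)
            _ = L / 40 := by field_simp; norm_num
        linarith
      have h3 : Real.exp (2 * u * K / Real.log z - Real.log (Q / z) / Real.log z) ≤ 1 / L ^ 2 := by
        have e1 : (1:ℝ) / L ^ 2 = Real.exp (-(2 * l)) := by
          rw [Real.exp_neg, hLexp, ← Real.exp_nat_mul]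
          push_cast
          rw [one_div]
        rw [e1]
        apply Real.exp_le_exp.mpr
        linarith
      have h4 : (u + 1) * ((2 / L) ^ 2 + Real.exp (2 * u * K / Real.log z -
          Real.log (Q / z) / Real.log z)) ≤ L * (5 / L ^ 2) := by
        apply mul_le_mul (by linarith) _ (by positivity) hLpos.le
        have : (2 / L) ^ 2 = 4 / L ^ 2 := vaux1 L hLpos
        rw [this]
        have e : (5:ℝ) / L ^ 2 = 4 / L ^ 2 + 1 / L ^ 2 := by ring
        rw [e]
        linarith
      have h5 : L * (5 / L ^ 2) = 5 / L := vaux2 L hLpos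
      have h6 : 5 / L ≤ 1 / 8 := by rw [div_le_div_iff₀ hLpos (by norm_num)]; linarith
      linarith)
    (by
      have h1 : (1 / (3:ℝ)) ^ J ≤ Real.exp (-(22 * l)) := by
        have e1 : (1 / (3:ℝ)) = Real.exp (-(Real.log 3)) := by
          rw [Real.exp_neg, Real.exp_log (by norm_num)]; norm_num
        rw [e1, ← Real.exp_nat_mul]
        apply Real.exp_le_exp.mpr
        have e2 : (1:ℝ) ≤ Real.log 3 := by
          rw [Real.le_log_iff_exp_le (by norm_num)]
          have := Real.exp_one_lt_d9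
          linarith
        have e3 : 22 * l ≤ J * Real.log 3 := by nlinarith
        linarith
      have h2 : Real.exp ((2 + 6 * 3) * ∑ i, g i) ≤ Real.exp (21 * l) := by
        apply Real.exp_le_exp.mpr
        linarith
      have h3 : (1 / (3:ℝ)) ^ J * Real.exp ((2 + 6 * 3) * ∑ i, g i) ≤ 1 / L := by
        calc (1 / (3:ℝ)) ^ J * Real.exp ((2 + 6 * 3) * ∑ i, g i)
            ≤ Real.exp (-(22 * l)) * Real.exp (21 * l) :=
              mul_le_mul h1 h2 (Real.exp_pos _).le (Real.exp_pos _).le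
          _ = Real.exp (-l) := by rw [← Real.exp_add]; congr 1; ring
          _ = 1 / L := by rw [Real.exp_neg, ← hLexp, one_div]
      calc u * (1 / (3:ℝ)) ^ J * Real.exp ((2 + 6 * 3) * ∑ i, g i)
          = u * ((1 / (3:ℝ)) ^ J * Real.exp ((2 + 6 * 3) * ∑ i, g i)) := by ring
        _ ≤ (L / 8) * (1 / L) := mul_le_mul huL h3 (by positivity) (by positivity)
        _ = 1 / 8 := vaux3 L hLpos)
    (by
      intro D hD
      apply hcount D
      refine le_trans hD ?_
      calc Q ^ 2 * z ^ J ≤ Real.exp (L / 40) ^ 2 * Real.exp (23 * L / 1000) :=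
            mul_le_mul_of_nonneg_left hzJ (by positivity)
        _ = Real.exp (L / 20 + 23 * L / 1000) := by
            rw [← Real.exp_nat_mul, ← Real.exp_add]
            congr 1
            push_cast
            ring
        _ ≤ Real.exp (L / 10) := Real.exp_le_exp.mpr (by linarith))
    (by
      have hn0 : (0:ℝ) ≤ (n:ℝ) + 1 := add_nonneg (Nat.cast_nonneg n) zero_le_one
      have hnJ0 : (0:ℝ) ≤ ((n:ℝ) + 1) ^ J := pow_nonneg hn0 J
      have h1 : ((n:ℝ) + 1) ^ J ≤ Real.exp (46 * L / 1000) := by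
        calc ((n:ℝ) + 1) ^ J ≤ (z ^ 2) ^ J := pow_le_pow_left₀ hn0 hnz J
          _ = (z ^ J) ^ 2 := pow_right_comm z 2 J
          _ ≤ (Real.exp (23 * L / 1000)) ^ 2 := pow_le_pow_left₀ (by positivity) hzJ 2
          _ = Real.exp (46 * L / 1000) := by rw [← Real.exp_nat_mul]; congr 1; push_cast; ring
      have h2 : u * ((n:ℝ) + 1) ^ J ≤ Real.exp (L / 100) * Real.exp (46 * L / 1000) :=
        mul_le_mul (by linarith) h1 hnJ0 (Real.exp_pos _).le
      have h3 : (1:ℝ) ≤ Real.exp (56 * L / 1000) := Real.one_le_exp (by positivity)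
      have h4 : 1 + u * ((n:ℝ) + 1) ^ J ≤ 2 * Real.exp (56 * L / 1000) := by
        have : Real.exp (L / 100) * Real.exp (46 * L / 1000) = Real.exp (56 * L / 1000) := by
          rw [← Real.exp_add]; congr 1; ring
        linarith
      have h5 : Q ^ 4 = Real.exp (L / 10) := by
        rw [hQ, ← Real.exp_nat_mul]; congr 1; push_cast; ring
      have h50 : (0:ℝ) ≤ 9 * Real.exp (L / 10) :=
        mul_nonneg (by norm_num) (Real.exp_pos _).le
      have h6 : 9 * Q ^ 4 * (1 + u * ((n:ℝ) + 1) ^ J) ≤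
          9 * Real.exp (L / 10) * (2 * Real.exp (56 * L / 1000)) := by
        rw [h5]
        exact mul_le_mul_of_nonneg_left h4 h50
      have h7 : 9 * Real.exp (L / 10) * (2 * Real.exp (56 * L / 1000)) =
          18 * Real.exp (156 * L / 1000) := by
        have : Real.exp (L / 10) * Real.exp (56 * L / 1000) = Real.exp (156 * L / 1000) := by
          rw [← Real.exp_add]; congr 1; ring
        calc _ = 18 * (Real.exp (L / 10) * Real.exp (56 * L / 1000)) := by ring
          _ = _ := by rw [this]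
      have h8 : 18 * Real.exp (156 * L / 1000) < Real.exp (L / 4) / 8 := by
        have e1 : Real.exp (L / 4) = Real.exp (156 * L / 1000) * Real.exp (94 * L / 1000) := by
          rw [← Real.exp_add]; congr 1; ring
        have e2 : (144:ℝ) < Real.exp (94 * L / 1000) := by
          have h94 : (9:ℝ) * (94 * L / 9000) = 94 * L / 1000 := by ring
          have h10 : (10:ℝ) ≤ 94 * L / 9000 + 0 := by linarith
          have h11 : (11:ℝ) ≤ Real.exp (94 * L / 9000) := by
            have := Real.add_one_le_exp (94 * L / 9000); linarith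
          have h12 : Real.exp (94 * L / 1000) = Real.exp (94 * L / 9000) ^ 9 := by
            rw [← Real.exp_nat_mul]; congr 1; push_cast; ring
          rw [h12]
          calc (144:ℝ) < 11 ^ 9 := by norm_num
            _ ≤ _ := pow_le_pow_left₀ (by norm_num) h11 9
        rw [e1]
        have := Real.exp_pos (156 * L / 1000)
        nlinarith
      rcases hErr0.eq_or_lt with h9 | h9
      · rw [← h9]
        simp only [zero_mul]
        linarith
      · calc Err * (9 * Q ^ 4 * (1 + u * ((n:ℝ) + 1) ^ J))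
            ≤ Err * (18 * Real.exp (156 * L / 1000)) := by
              apply mul_le_mul_of_nonneg_left _ hErr0
              rw [← h7]
              exact h6
          _ < Err * (Real.exp (L / 4) / 8) := mul_lt_mul_of_pos_left h8 h9
          _ = Err * Real.exp (L / 4) / 8 := by ring
          _ ≤ N / 8 := by linarith)

end Pool.Agent.H525.AC
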