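import Mathlib

set_option autoImplicit false

/-! # The greedy sieve -/

namespace Pool.Agent.H525.AC

open Finset

open scoped Classical

theorem exists_large_fibre {α β : Type} (T : Finset α) (R : Finset β) (hR : R.Nonempty)
    (f : α → β) (hf : ∀ a ∈ T, f a ∈ R) :
    ∃ b ∈ R, (T.card : ℝ) / R.card ≤ ((T.filter (fun a => f a = b)).card : ℝ) := by
  by_contra hc
  push Not at hc
  have hR0 : (0:ℝ) < R.card := by exact_mod_cast hR.card_pos
  have h1 : (T.card : ℝ) = ∑ b ∈ R, ((T.filter (fun a => f a = b)).card : ℝ) := by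
    have := Finset.card_eq_sum_card_fiberwise (f := f) (s := T) (t := R) hf
    exact_mod_cast this
  have h2 : ∑ b ∈ R, ((T.filter (fun a => f a = b)).card : ℝ) < ∑ b ∈ R, (T.card : ℝ) / R.card :=
    Finset.sum_lt_sum_of_nonempty hR hc
  rw [Finset.sum_const, nsmul_eq_mul] at h2
  have h3 : (R.card : ℝ) * (T.card / R.card) = T.card := by field_simp
  rw [h3, ← h1] at h2
  exact lt_irrefl _ h2

theorem greedy {α β ι : Type} [Nonempty β] (T : Finset α) (s : Finset ι) (f : ι → α → β)
    (R : ι → Finset β) (hR : ∀ i ∈ s, ∀ a ∈ T, f i a ∈ R i) (hne : ∀ i ∈ s, (R i).Nonempty) :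
    ∃ c : ι → β, (∀ i ∈ s, c i ∈ R i) ∧
      ((T.filter (fun a => ∀ i ∈ s, f i a ≠ c i)).card : ℝ) ≤
        T.card * ∏ i ∈ s, (1 - 1 / ((R i).card : ℝ)) := by
  induction s using Finset.induction_on with
  | empty => exact ⟨fun _ => Classical.choice inferInstance, by simp, by simp⟩
  | insert j s hj ih =>
    obtain ⟨c, hc1, hc2⟩ := ih (fun i hi => hR i (Finset.mem_insert_of_mem hi))
      (fun i hi => hne i (Finset.mem_insert_of_mem hi))
    set T' := T.filter (fun a => ∀ i ∈ s, f i a ≠ c i) with hT'
    have hRj := hne j (Finset.mem_insert_self _ _)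
    obtain ⟨b, hb, hb2⟩ := exists_large_fibre T' (R j) hRj (f j)
      (fun a ha => hR j (Finset.mem_insert_self _ _) a (Finset.mem_filter.1 ha).1)
    refine ⟨Function.update c j b, ?_, ?_⟩
    · intro i hi
      rcases Finset.mem_insert.1 hi with rfl | hi
      · rw [Function.update_self]; exact hb
      · have : i ≠ j := fun h => hj (h ▸ hi)
        rw [Function.update_of_ne this]
        exact hc1 i hi
    · have h1 : T.filter (fun a => ∀ i ∈ insert j s, f i a ≠ Function.update c j b i) =
          T'.filter (fun a => ¬ f j a = b) := by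
        rw [hT', Finset.filter_filter]
        apply Finset.filter_congr
        intro a _
        constructor
        · intro h
          refine ⟨fun i hi => ?_, ?_⟩
          · have h2 := h i (Finset.mem_insert_of_mem hi)
            have : i ≠ j := fun h => hj (h ▸ hi)
            rwa [Function.update_of_ne this] at h2
          · have h2 := h j (Finset.mem_insert_self _ _)
            rwa [Function.update_self] at h2
        · rintro ⟨h2, h3⟩ i hi
          rcases Finset.mem_insert.1 hi with rfl | hi
          · rw [Function.update_self]; exact h3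
          · have : i ≠ j := fun h => hj (h ▸ hi)
            rw [Function.update_of_ne this]
            exact h2 i hi
      rw [h1]
      have h2 : ((T'.filter (fun a => ¬ f j a = b)).card : ℝ) =
          T'.card - (T'.filter (fun a => f j a = b)).card := by
        have := Finset.card_filter_add_card_filter_not (s := T') (fun a => f j a = b)
        have h3 : ((T'.filter (fun a => f j a = b)).card : ℝ) +
            (T'.filter (fun a => ¬ f j a = b)).card = T'.card := by exact_mod_cast this
        linarith
      rw [h2, Finset.prod_insert hj]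
      have hR1 : (1:ℝ) ≤ (R j).card := by exact_mod_cast hRj.card_pos
      have h4 : 0 ≤ 1 - 1 / ((R j).card : ℝ) := by
        rw [sub_nonneg, div_le_one (by linarith)]
        exact hR1
      calc (T'.card : ℝ) - (T'.filter (fun a => f j a = b)).card
          ≤ T'.card - T'.card / (R j).card := by linarith
        _ = (1 - 1 / ((R j).card : ℝ)) * T'.card := by ring
        _ ≤ (1 - 1 / ((R j).card : ℝ)) * (T.card * ∏ i ∈ s, (1 - 1 / ((R i).card : ℝ))) :=
            mul_le_mul_of_nonneg_left hc2 h4
        _ = _ := by ring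

theorem greedy' {α β ι : Type} [Nonempty β] (T : Finset α) (s : Finset ι) (f : ι → α → β)
    (R : ι → Finset β) (hR : ∀ i ∈ s, ∀ a ∈ T, f i a ∈ R i) (hne : ∀ i ∈ s, (R i).Nonempty) :
    ∃ c : ι → β, (∀ i ∈ s, c i ∈ R i) ∧
      ∀ S : Finset α, (∀ a ∈ S, a ∈ T ∧ ∀ i ∈ s, f i a ≠ c i) →
        (S.card : ℝ) ≤ T.card * ∏ i ∈ s, (1 - 1 / ((R i).card : ℝ)) := by
  obtain ⟨c, h1, h2⟩ := greedy T s f R hR hne
  refine ⟨c, h1, fun S hS => ?_⟩
  have h3 : S ⊆ T.filter (fun a => ∀ i ∈ s, f i a ≠ c i) := fun a ha =>
    Finset.mem_filter.2 (hS a ha)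
  have h4 : (S.card : ℝ) ≤ ((T.filter (fun a => ∀ i ∈ s, f i a ≠ c i)).card : ℝ) := by
    exact_mod_cast Finset.card_le_card h3
  exact h4.trans h2

/-- the product of the greedy factors -/
theorem prod_le_exp {ι : Type} (s : Finset ι) (N : ι → ℝ) (hN : ∀ i ∈ s, 1 ≤ N i) :
    ∏ i ∈ s, (1 - 1 / N i) ≤ Real.exp (-∑ i ∈ s, 1 / N i) := by
  rw [← Finset.sum_neg_distrib, Real.exp_sum]
  apply Finset.prod_le_prod
  · intro i hi
    have := hN i hi
    rw [sub_nonneg, div_le_one (by linarith)]
    exact this
  · intro i _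
    have := Real.add_one_le_exp (-(1 / N i))
    linarith

end Pool.Agent.H525.AC
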