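import Mathlib

set_option autoImplicit false

/-! # Choosing residue classes by the method of conditional expectations; distinct representatives -/

namespace Pool.Agent.H525.AC

open Finset

open scoped Classical

theorem pot_one {α β : Type} (T : Finset α) (B : Finset β) (A : α → Finset β) (hB : B.Nonempty)
    (hA : ∀ t ∈ T, A t ⊆ B) (f : α → ℝ) : ∃ c ∈ B,
    ∑ t ∈ T.filter (fun t => c ∉ A t), f t ≤
      ∑ t ∈ T, (1 - ((A t).card : ℝ) / B.card) * f t := by
  have hB0 : (0:ℝ) < B.card := by exact_mod_cast hB.card_pos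
  have h1 : ∑ c ∈ B, ∑ t ∈ T.filter (fun t => c ∉ A t), f t =
      ∑ c ∈ B, ∑ t ∈ T, (1 - ((A t).card : ℝ) / B.card) * f t := by
    rw [Finset.sum_const, nsmul_eq_mul, Finset.mul_sum]
    have h2 : ∀ c ∈ B, ∑ t ∈ T.filter (fun t => c ∉ A t), f t =
        ∑ t ∈ T, if c ∉ A t then f t else 0 := fun c _ => Finset.sum_filter _ _
    rw [Finset.sum_congr rfl h2, Finset.sum_comm]
    apply Finset.sum_congr rfl
    intro t ht
    rw [← Finset.sum_filter, Finset.sum_const, nsmul_eq_mul]
    have h3 : B.filter (fun c => c ∉ A t) = B \ A t := by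
      ext c
      rw [mem_filter, mem_sdiff]
    rw [h3, Finset.card_sdiff_of_subset (hA t ht), Nat.cast_sub (Finset.card_le_card (hA t ht))]
    field_simp
  exact Finset.exists_le_of_sum_le hB h1.le

/-- the method of conditional expectations -/
theorem potential {α β ι : Type} [Nonempty β] (s : Finset ι) (B : ι → Finset β) :
    ∀ (T : Finset α) (A : ι → α → Finset β), (∀ i ∈ s, (B i).Nonempty) →
    (∀ i ∈ s, ∀ t ∈ T, A i t ⊆ B i) → ∃ c : ι → β, (∀ i ∈ s, c i ∈ B i) ∧
      ((T.filter (fun t => ∀ i ∈ s, c i ∉ A i t)).card : ℝ) ≤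
        ∑ t ∈ T, ∏ i ∈ s, (1 - ((A i t).card : ℝ) / (B i).card) := by
  induction s using Finset.induction_on with
  | empty =>
    intro T A _ _
    refine ⟨fun _ => Classical.arbitrary β, by simp, ?_⟩
    simp
  | insert i s hi ih =>
    intro T A hB hA
    obtain ⟨x, hx, hx2⟩ := pot_one T (B i) (A i) (hB i (mem_insert_self _ _))
      (hA i (mem_insert_self _ _)) (fun t => ∏ i ∈ s, (1 - ((A i t).card : ℝ) / (B i).card))
    obtain ⟨c, hc1, hc2⟩ := ih (T.filter (fun t => x ∉ A i t)) A
      (fun j hj => hB j (mem_insert_of_mem hj))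
      (fun j hj t ht => hA j (mem_insert_of_mem hj) t (mem_filter.1 ht).1)
    refine ⟨Function.update c i x, ?_, ?_⟩
    · intro j hj
      rcases mem_insert.1 hj with h | h
      · rw [h, Function.update_self]; exact hx
      · have hne : j ≠ i := fun e => hi (e ▸ h)
        rw [Function.update_of_ne hne]
        exact hc1 j h
    · have h1 : (T.filter (fun t => ∀ j ∈ insert i s, Function.update c i x j ∉ A j t)) ⊆
          ((T.filter (fun t => x ∉ A i t)).filter (fun t => ∀ j ∈ s, c j ∉ A j t)) := by
        intro t ht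
        rw [mem_filter] at ht
        rw [mem_filter, mem_filter]
        refine ⟨⟨ht.1, ?_⟩, ?_⟩
        · have := ht.2 i (mem_insert_self _ _)
          rwa [Function.update_self] at this
        · intro j hj
          have hne : j ≠ i := fun e => hi (e ▸ hj)
          have := ht.2 j (mem_insert_of_mem hj)
          rwa [Function.update_of_ne hne] at this
      have h2 : ((T.filter (fun t => ∀ j ∈ insert i s, Function.update c i x j ∉ A j t)).card : ℝ) ≤
          (((T.filter (fun t => x ∉ A i t)).filter (fun t => ∀ j ∈ s, c j ∉ A j t)).card : ℝ) := by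
        exact_mod_cast Finset.card_le_card h1
      refine h2.trans (hc2.trans (hx2.trans (le_of_eq ?_)))
      apply Finset.sum_congr rfl
      intro t _
      rw [Finset.prod_insert hi]

/-- distinct representatives avoiding few bad elements -/
theorem assign {σ τ : Type} [Nonempty τ] (P : Finset τ) (bad : σ → Finset τ) (m : ℕ) :
    ∀ (S : Finset σ), (∀ s ∈ S, ((bad s) ∩ P).card ≤ m) → S.card + m ≤ P.card →
    ∃ f : σ → τ, (∀ s ∈ S, f s ∈ P ∧ f s ∉ bad s) ∧ ∀ s ∈ S, ∀ t ∈ S, f s = f t → s = t := by
  intro S
  induction S using Finset.induction_on with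
  | empty => intro _ _; exact ⟨fun _ => Classical.arbitrary τ, by simp, by simp⟩
  | insert s S hs ih =>
    intro hbad hP
    rw [Finset.card_insert_of_notMem hs] at hP
    obtain ⟨f, hf1, hf2⟩ := ih (fun t ht => hbad t (mem_insert_of_mem ht)) (by omega)
    have h1 : ∃ x ∈ P, x ∉ (S.image f) ∪ (bad s ∩ P) := by
      by_contra hcon
      push Not at hcon
      have h2 : P.card ≤ ((S.image f) ∪ (bad s ∩ P)).card := Finset.card_le_card hcon
      have h3 := Finset.card_union_le (S.image f) (bad s ∩ P)
      have h4 : (S.image f).card ≤ S.card := Finset.card_image_le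
      have h5 := hbad s (mem_insert_self _ _)
      omega
    obtain ⟨x, hxP, hx⟩ := h1
    rw [mem_union, not_or] at hx
    have hxb : x ∉ bad s := fun h => hx.2 (mem_inter.2 ⟨h, hxP⟩)
    refine ⟨Function.update f s x, ?_, ?_⟩
    · intro t ht
      rcases mem_insert.1 ht with h | h
      · rw [h, Function.update_self]; exact ⟨hxP, hxb⟩
      · have hne : t ≠ s := fun e => hs (e ▸ h)
        rw [Function.update_of_ne hne]
        exact hf1 t h
    · intro t ht u hu htu
      by_cases hts : t = s
      · by_cases hus : u = s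
        · rw [hts, hus]
        · exfalso
          have hu' : u ∈ S := (mem_insert.1 hu).resolve_left hus
          rw [hts, Function.update_self, Function.update_of_ne hus] at htu
          exact hx.1 (mem_image.2 ⟨u, hu', htu.symm⟩)
      · have ht' : t ∈ S := (mem_insert.1 ht).resolve_left hts
        by_cases hus : u = s
        · exfalso
          rw [hus, Function.update_self, Function.update_of_ne hts] at htu
          exact hx.1 (mem_image.2 ⟨t, ht', htu⟩)
        · have hu' : u ∈ S := (mem_insert.1 hu).resolve_left hus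
          rw [Function.update_of_ne hts, Function.update_of_ne hus] at htu
          exact hf2 t ht' u hu' htu

/-- a product of factors `1 - a / b` -/
theorem prod_one_sub_le {ι : Type} (s : Finset ι) (a b : ι → ℝ) (h : ∀ i ∈ s, 0 < b i)
    (h0 : ∀ i ∈ s, a i ≤ b i) :
    ∏ i ∈ s, (1 - a i / b i) ≤ Real.exp (-∑ i ∈ s, a i / b i) := by
  rw [← Finset.sum_neg_distrib, Real.exp_sum]
  apply Finset.prod_le_prod
  · intro i hi
    rw [sub_nonneg, div_le_one (h i hi)]
    exact h0 i hi
  · intro i _
    have := Real.add_one_le_exp (-(a i / b i))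
    linarith

end Pool.Agent.H525.AC
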